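import Pool.Agent.H59.PG.Stmts

/-!
# Parity games, row EAS
-/

set_option autoImplicit false

namespace Pool.PG

open TMLib

private lemma eas_win (hS : SOLStmt) {g : Game} (hg : Valid g) {v : ℕ} (hv : v < g.length)
    {b : Bool} (hb : b = true ↔ Win g true v) : Win g b v := by
  have h := (hS g hg).2 v hv
  cases b with
  | true => exact hb.1 rfl
  | false =>
    refine (h false).2 ?_
    cases hw : win g v with
    | false => rfl
    | true => exact absurd (hb.2 ((h true).2 hw)) (by decide)

private lemma eas_not (hS : SOLStmt) {g : Game} (hg : Valid g) {v : ℕ} (hv : v < g.length)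
    (h : Win g false v) : ¬ Win g true v := by
  intro h'
  have h0 := ((hS g hg).2 v hv false).1 h
  have h1 := ((hS g hg).2 v hv true).1 h'
  rw [h0] at h1
  exact absurd h1 (by decide)

private lemma eas_count (hS : SOLStmt) {g : Game} (hg : Valid g) (i : Bool)
    (h : ∀ v < g.length, Win g i v) : numWin g = if i = true then g.length else 0 := by
  classical
  unfold numWin
  cases i with
  | true =>
    rw [if_pos rfl, Finset.filter_true_of_mem fun v hv => h v (Finset.mem_range.1 hv),
      Finset.card_range]
  | false =>
    rw [if_neg (by decide), Finset.filter_false_of_mem fun v hv =>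
      eas_not hS hg (Finset.mem_range.1 hv) (h v (Finset.mem_range.1 hv)), Finset.card_empty]

theorem eas_row (hS : SOLStmt) (hR : RSTStmt) (hL : RSLStmt) (hP : PRSStmt) : EASStmt := by
  refine ⟨?_, ?_, ?_, ?_, ?_, ?_, ?_⟩
  · -- labels
    rintro δ ⟨B, hB, hW⟩
    refine ⟨fun g => (List.range g.length).map fun v => B (g, v), ?_, fun g hg => ?_⟩
    · exact PTime.map (g := fun (g : Game) (v : ℕ) => B (g, v)) (by fun_prop) hB
    · have hr : right g ((List.range g.length).map fun v => B (g, v)) = g.length := by
        classical
        unfold right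
        rw [Finset.filter_true_of_mem, Finset.card_range]
        intro v hv
        have hv' := Finset.mem_range.1 hv
        have e : ((List.range g.length).map fun v => B (g, v)).getD v false = B (g, v) := by
          rw [List.getD_eq_getElem _ _ (by simpa using hv'), List.getElem_map, List.getElem_range]
        rw [e]
        exact eas_win hS hg hv' (hW g v hg hv')
      rw [hr]
      have h1 : (0 : ℝ) ≤ (g.length : ℝ) := Nat.cast_nonneg _
      have h2 : (0 : ℝ) ≤ (g.length : ℝ) ^ δ := Real.rpow_nonneg h1 δ
      linarith only [h1, h2]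
  · -- one vertex
    rintro ⟨B, hB, hW⟩
    refine ⟨fun g => (0, B (g, 0)), ?_, fun g hg h0 => ⟨h0, eas_win hS hg h0 (hW g 0 hg h0)⟩⟩
    exact PTime.pair (PTime.const 0) (hB.comp (f := fun g : Game => (g, 0)) (by fun_prop))
  · -- the number
    rintro ⟨B, hB, hW⟩
    refine ⟨fun g => ((List.range g.length).filter fun v => B (g, v)).length, ?_,
      fun g hg h0 => ?_⟩
    · exact PTime.length (PTime.filter (g := fun (g : Game) (v : ℕ) => B (g, v)) (by fun_prop) hB)
    · have e : ((List.range g.length).filter fun v => B (g, v)).length = numWin g := by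
        unfold numWin
        classical
        have hnd : ((List.range g.length).filter fun v => B (g, v)).Nodup :=
          (List.nodup_range).filter _
        rw [← List.toFinset_card_of_nodup hnd]
        refine congrArg Finset.card (Finset.ext fun v => ?_)
        rw [List.mem_toFinset, List.mem_filter, List.mem_range, Finset.mem_filter,
          Finset.mem_range]
        exact and_congr_right fun hv => hW g v hg hv
      show 2 * |((((List.range g.length).filter fun v => B (g, v)).length : ℕ) : ℤ) - numWin g| <
        (g.length : ℤ)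
      rw [e, sub_self, abs_zero, mul_zero]
      exact_mod_cast h0
  · -- tuples
    rintro m hm ⟨B, hB, hW⟩
    refine ⟨fun l => l.map B, ?_, fun l hl hv => ⟨0, hm, ?_⟩⟩
    · exact PTime.map (g := fun (_ : List (Game × ℕ)) (p : Game × ℕ) => B p) (by fun_prop)
        (hB.comp (f := fun p : List (Game × ℕ) × (Game × ℕ) => p.2) (by fun_prop))
    · have h0 : 0 < l.length := by omega
      have e1 : l.getD 0 ([], 0) = l[0] := List.getD_eq_getElem _ _ h0
      have e2 : (l.map B).getD 0 false = B l[0] := by
        rw [List.getD_eq_getElem _ _ (by simpa using h0), List.getElem_map]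
      rw [e1, e2]
      obtain ⟨h1, h2⟩ := hv l[0] (List.getElem_mem h0)
      exact eas_win hS h1 h2 (hW _ _ h1 h2)
  · -- one vertex, homogeneous games
    rintro ⟨B, hB, hW⟩
    refine ⟨fun g => (B g).2, PTime.snd hB, fun g i hg h0 hi => ?_⟩
    obtain ⟨h1, h2⟩ := hW g hg h0
    have h3 := ((hS g hg).2 _ h1 _).1 h2
    have h4 := ((hS g hg).2 _ h1 _).1 (hi _ h1)
    show (B g).2 = i
    rw [← h3, h4]
  · -- the number, homogeneous games
    rintro ⟨B, hB, hW⟩
    refine ⟨fun g => decide (g.length < 2 * B g), ?_, fun g i hg h0 hi => ?_⟩
    · exact PTime.lt (by fun_prop) (PTime.mul (PTime.const 2) hB)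
    · have h1 := hW g hg h0
      rw [eas_count hS hg i hi] at h1
      cases i with
      | true =>
        rw [if_pos rfl] at h1
        have := abs_lt.1 (show |(B g : ℤ) - (g.length : ℤ)| < g.length by omega)
        have h2 := neg_abs_le ((B g : ℤ) - (g.length : ℤ))
        exact decide_eq_true (by omega)
      | false =>
        rw [if_neg (by decide)] at h1
        have h2 := le_abs_self ((B g : ℤ) - ((0 : ℕ) : ℤ))
        exact decide_eq_false (by omega)
  · -- homogeneous games are enough
    rintro ⟨B, hB, hW⟩
    refine ⟨fun p => B (rst p.2 p.1), ?_, fun g v hg hv => ?_⟩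
    · exact hB.comp (hP.comp (f := fun p : Game × ℕ => (p.2, p.1)) (by fun_prop))
    · obtain ⟨h1, -, -, -, -, h2⟩ := hL g v
      have hval : Valid (rst v g) := h2 hg hv
      have h3 : B (rst v g) = win g v := by
        refine hW (rst v g) (win g v) hval (by omega) fun u hu => ?_
        exact ((hS _ hval).2 u hu _).2 (hR g v hg hv u hu)
      show B (rst v g) = true ↔ Win g true v
      rw [h3]
      exact ((hS g hg).2 v hv true).symm

end Pool.PG
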