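import Pool.Agent.H59.PG.Stmts

/-!
# Parity games, rows PHL, PAG
-/

set_option autoImplicit false

namespace Pool.PG

open TMLib

/-- One step of the doubling of the matrix. -/
private def phlStep (L : ℕ) (H : List (List Bool)) : List (List Bool) :=
  if H.length < L then
    H.map (fun r => r ++ r) ++ H.map (fun r => r ++ r.map fun b => !b) else H

private lemma phlStep_ptime : PTime (fun p : ℕ × List (List Bool) => (p.1, phlStep p.1 p.2)) := by
  unfold phlStep
  fun_prop

private lemma phl_iter (L : ℕ) : ∀ i : ℕ,
    (fun p : ℕ × List (List Bool) => (p.1, phlStep p.1 p.2))^[i] (L, [[true]]) =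
      (L, (phlStep L)^[i] [[true]]) := by
  intro i
  induction i with
  | zero => rfl
  | succ i ih => rw [Function.iterate_succ_apply', ih, Function.iterate_succ_apply']

private lemma phl_inv (L : ℕ) : ∀ i : ℕ,
    ((phlStep L)^[i] [[true]]).length ≤ 2 * L + 1 ∧
      ∀ r ∈ (phlStep L)^[i] [[true]], r.length ≤ ((phlStep L)^[i] [[true]]).length := by
  intro i
  induction i with
  | zero =>
    refine ⟨by simp, fun r hr => ?_⟩
    simp only [Function.iterate_zero, id_eq, List.mem_singleton] at hr
    subst hr
    simp
  | succ i ih =>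
    rw [Function.iterate_succ_apply']
    obtain ⟨h1, h2⟩ := ih
    generalize (phlStep L)^[i] [[true]] = H at h1 h2
    unfold phlStep
    by_cases h : H.length < L
    · rw [if_pos h]
      refine ⟨by simp only [List.length_append, List.length_map]; omega, fun r hr => ?_⟩
      simp only [List.length_append, List.length_map]
      rcases List.mem_append.1 hr with hr | hr
      · obtain ⟨s, hs, rfl⟩ := List.mem_map.1 hr
        have := h2 s hs
        simp only [List.length_append]
        omega
      · obtain ⟨s, hs, rfl⟩ := List.mem_map.1 hr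
        have := h2 s hs
        simp only [List.length_append, List.length_map]
        omega
    · rw [if_neg h]
      exact ⟨h1, h2⟩

private lemma phl_sz (L : ℕ) (i : ℕ) :
    sz ((phlStep L)^[i] [[true]]) ≤ 1 + (2 * L + 1) * (1 + (1 + (2 * L + 1) * 4)) := by
  obtain ⟨h1, h2⟩ := phl_inv L i
  refine sz_list_le _ _ _ h1 fun r hr => ?_
  exact sz_list_le r (2 * L + 1) 3 ((h2 r hr).trans h1) fun b _ => sz_bool_le b

theorem phl_row : PHLStmt := by
  refine ⟨?_, ?_⟩
  · have hs : PTime (fun L : ℕ => (L, ([[true]] : List (List Bool)))) := by fun_prop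
    have hb : PTime (fun L : ℕ => 1 + (2 * L + 1) + (1 + (2 * L + 1) * (1 + (1 + (2 * L + 1) * 4)))) := by
      fun_prop
    have hh : PB (fun L : ℕ => 1 + (2 * L + 1) +
        (1 + (2 * L + 1) * (1 + (1 + (2 * L + 1) * 4)))) :=
      hb.pb.mono fun L => by rw [sz_nat]; omega
    have h1 := PTime.iter (n := fun L : ℕ => L) phlStep_ptime hs PTime.id hh (fun L i _ => by
      rw [phl_iter]
      have := phl_sz L i
      simp only [sz_pair, sz_nat]
      omega)
    refine (PTime.snd h1).congr fun L => ?_
    rw [phl_iter]
    rfl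
  · show PTime (fun H : List (List Bool) => H ++ H.map fun r => r.map fun b => !b)
    fun_prop

private lemma pag_beq {α : Type} [Enc α] {f g : α → Bool} (hf : PTime f) (hg : PTime g) :
    PTime (fun x => f x == g x) :=
  (PTime.cond hf hg (PTime.not hg)).congr fun x => by cases f x <;> cases g x <;> rfl

private lemma pag_sum {α : Type} [Enc α] {l : α → List ℕ} (hl : PTime l) :
    PTime (fun x => (l x).sum) := by
  have e : ∀ (l : List ℕ) (s : ℕ), l.foldl (fun s b => s + b) s = s + l.sum := by
    intro l
    induction l with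
    | nil => intro s; rfl
    | cons b l ih =>
      intro s
      rw [List.foldl_cons, ih, List.sum_cons, Nat.add_assoc]
  have hsz : ∀ l : List ℕ, 2 * l.sum ≤ sz l := by
    intro l
    induction l with
    | nil => simp
    | cons b l ih =>
      rw [List.sum_cons, sz_cons, sz_nat]
      omega
  have := PTime.foldl (f := fun _ s b => s + b) (init := fun _ : α => 0) (l := l)
    (PTime.add (PTime.fst (PTime.snd PTime.id)) (PTime.snd (PTime.snd PTime.id)))
    (PTime.const 0) hl (h := fun a => 1 + sz (l a)) ((PB.const 1).add hl.pb)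
    (fun a l' hl' => by
      rw [e, sz_nat]
      have h1 := hsz l'
      have h2 := sz_le_of_prefix hl'
      omega)
  exact this.congr fun a => by rw [e, Nat.zero_add]

private lemma pag_argm_lt (q : ℕ → ℕ) (M : ℕ) : ∀ l : List ℕ, (∀ k ∈ l, k ≤ M) → ∀ b ≤ M,
    l.foldl (fun b k => if q k < q b then k else b) b ≤ M := by
  intro l
  induction l with
  | nil => intro _ b hb; exact hb
  | cons k l ih =>
    intro hl b hb
    rw [List.foldl_cons]
    refine ih (fun k hk => hl k (List.mem_cons_of_mem _ hk)) _ ?_
    by_cases h : q k < q b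
    · rw [if_pos h]; exact hl k List.mem_cons_self
    · rw [if_neg h]; exact hb

theorem pag_row : PAGStmt := by
  refine ⟨?_, ?_⟩
  · unfold agr
    refine pag_sum (PTime.map (g := fun (p : (List Bool × ℕ) × List Bool) (x : ℕ) =>
      ((List.range p.1.2).filter fun u =>
        p.1.1.getD (x * p.1.2 + u) false == p.2.getD x false).length) (by fun_prop) ?_)
    refine PTime.length (PTime.filter (g := fun (q : ((List Bool × ℕ) × List Bool) × ℕ) (u : ℕ) =>
        q.1.1.1.getD (q.2 * q.1.1.2 + u) false == q.1.2.getD q.2 false) (by fun_prop) ?_)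
    exact pag_beq (by fun_prop) (by fun_prop)
  · intro α _ q M hq hM
    unfold argm
    have hstep : PTime (fun p : α × ℕ × ℕ => if q p.1 p.2.2 < q p.1 p.2.1 then p.2.2 else p.2.1) := by
      have h1 : PTime (fun p : α × ℕ × ℕ => q p.1 p.2.2) :=
        hq.comp (f := fun p : α × ℕ × ℕ => (p.1, p.2.2)) (by fun_prop)
      have h2 : PTime (fun p : α × ℕ × ℕ => q p.1 p.2.1) :=
        hq.comp (f := fun p : α × ℕ × ℕ => (p.1, p.2.1)) (by fun_prop)
      exact PTime.ite (PTime.lt h1 h2) (by fun_prop) (by fun_prop)
    refine PTime.foldl (f := fun a b k => if q a k < q a b then k else b) (init := fun _ : α => 0)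
      (l := fun a => List.range (M a)) hstep (PTime.const 0) (PTime.range hM)
      (h := fun a => sz (M a)) hM.pb (fun a l' hl' => ?_)
    rw [sz_nat, sz_nat]
    have := pag_argm_lt (q a) (M a) l' (fun k hk => by
      have := List.mem_range.1 (hl'.subset hk)
      omega) 0 (Nat.zero_le _)
    omega

end Pool.PG
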