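import Pool.Agent.H59.PG.Stmts

/-!
# Parity games, rows PSE, PDC
-/

set_option autoImplicit false

namespace Pool.PG

open TMLib

theorem pse_row : PSEStmt := by
  unfold PSEStmt sel
  fun_prop

theorem pdc_row (h1 : PV1Stmt) : PDCStmt := by
  obtain ⟨hvx, hown, -, hsuc, -⟩ := h1
  refine ⟨?_, ?_⟩
  · show PTime (fun g : Game => g.map fun e => ((!e.1.1, e.1.2 + 1), e.2))
    fun_prop
  · have hres : PTime (fun p : (Game × ℕ) × ℕ => res p.1.1 p.1.2 p.2) := by
      unfold res
      refine PTime.map (g := fun (x : (Game × ℕ) × ℕ) (u : ℕ) =>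
        if u = x.1.2 then ((vx x.1.1 u).1, [x.2]) else vx x.1.1 u) (by fun_prop) ?_
      have h : PTime (fun p : ((Game × ℕ) × ℕ) × ℕ => vx p.1.1.1 p.2) :=
        hvx.comp (f := fun p : ((Game × ℕ) × ℕ) × ℕ => (p.1.1.1, p.2)) (by fun_prop)
      exact PTime.ite (by fun_prop) (by fun_prop) h
    unfold chd
    refine PTime.ite ?_ (PTime.map (g := fun (x : Game × ℕ) (w : ℕ) => res x.1 x.2 w) hsuc hres)
      (by fun_prop)
    exact PTime.decide_true' hown

end Pool.PG
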