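import Pool.Agent.H59.PG.Stmts

/-!
# Parity games, rows PWL, PWT
-/

set_option autoImplicit false

namespace Pool.PG

open TMLib

theorem pwl_row (h1 : PGLStmt) (h2 : PRSStmt) (h3 : PAGStmt) (h4 : PSEStmt) : PWLStmt := by
  intro A α _ N n v C hA hN hn hv hC
  have hC1 : PTime (fun p : α × List Game => C p.1) := hC.comp (PTime.fst PTime.id)
  have hN1 : PTime (fun p : α × List Game => N p.1) := hN.comp (PTime.fst PTime.id)
  have hn1 : PTime (fun p : α × List Game => n p.1) := hn.comp (PTime.fst PTime.id)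
  have hv1 : PTime (fun p : α × List Game => v p.1) := hv.comp (PTime.fst PTime.id)
  have hs : PTime (fun p : α × List Game => 2 * (1 + N p.1 * n p.1) + 3) := by fun_prop
  -- the alternatives
  have ho : PTime (fun p : (α × List Game) × ℕ =>
      rst 0 (org (n p.1.1) (v p.1.1) (sel (C p.1.1) p.2 p.1.2))) := by
    have hn2 : PTime (fun p : (α × List Game) × ℕ => n p.1.1) := hn1.comp (PTime.fst PTime.id)
    have hv2 : PTime (fun p : (α × List Game) × ℕ => v p.1.1) := hv1.comp (PTime.fst PTime.id)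
    have hC2 : PTime (fun p : (α × List Game) × ℕ => C p.1.1) := hC1.comp (PTime.fst PTime.id)
    have e1 : PTime (fun p : (α × List Game) × ℕ => sel (C p.1.1) p.2 p.1.2) :=
      h4.comp (f := fun p : (α × List Game) × ℕ => ((C p.1.1, p.2), p.1.2)) (by fun_prop)
    have e2 : PTime (fun p : (α × List Game) × ℕ =>
        org (n p.1.1) (v p.1.1) (sel (C p.1.1) p.2 p.1.2)) :=
      h1.2.comp (f := fun p : (α × List Game) × ℕ =>
        ((n p.1.1, v p.1.1), sel (C p.1.1) p.2 p.1.2)) (by fun_prop)
    exact h2.comp (f := fun p : (α × List Game) × ℕ =>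
      (0, org (n p.1.1) (v p.1.1) (sel (C p.1.1) p.2 p.1.2))) (by fun_prop)
  have hm : PTime (fun p : α × List Game => (List.range (N p.1)).map fun x =>
      rst 0 (org (n p.1) (v p.1) (sel (C p.1) x p.2))) :=
    PTime.map (g := fun (p : α × List Game) (x : ℕ) =>
      rst 0 (org (n p.1) (v p.1) (sel (C p.1) x p.2))) (PTime.range hN1) ho
  have hg : PTime (fun p : α × List Game => glue 0 (2 * (1 + N p.1 * n p.1) + 3)
      ((List.range (N p.1)).map fun x => rst 0 (org (n p.1) (v p.1) (sel (C p.1) x p.2)))) :=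
    h1.1.comp (f := fun p : α × List Game => ((0, 2 * (1 + N p.1 * n p.1) + 3),
      (List.range (N p.1)).map fun x => rst 0 (org (n p.1) (v p.1) (sel (C p.1) x p.2))))
      (PTime.pair (PTime.pair (PTime.const 0) hs) hm)
  have hag := hA.comp hg
  have hq : PTime (fun p : (α × List Game) × ℕ =>
      agr (A (glue 0 (2 * (1 + N p.1.1 * n p.1.1) + 3)
        ((List.range (N p.1.1)).map fun x => rst 0 (org (n p.1.1) (v p.1.1)
          (sel (C p.1.1) x p.1.2))))) (2 * (1 + N p.1.1 * n p.1.1) + 3)
        ((C p.1.1).getD p.2 [])) :=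
    h3.1.comp (f := fun p : (α × List Game) × ℕ =>
      ((A (glue 0 (2 * (1 + N p.1.1 * n p.1.1) + 3)
        ((List.range (N p.1.1)).map fun x => rst 0 (org (n p.1.1) (v p.1.1)
          (sel (C p.1.1) x p.1.2)))), 2 * (1 + N p.1.1 * n p.1.1) + 3), (C p.1.1).getD p.2 []))
      (PTime.pair (PTime.pair (hag.comp (PTime.fst PTime.id)) (hs.comp (PTime.fst PTime.id)))
        (PTime.listGetD (hC1.comp (PTime.fst PTime.id)) (PTime.snd PTime.id) (PTime.const [])))
  exact h3.2 (α × List Game) (fun p k => agr (A (glue 0 (2 * (1 + N p.1 * n p.1) + 3)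
        ((List.range (N p.1)).map fun x => rst 0 (org (n p.1) (v p.1)
          (sel (C p.1) x p.2))))) (2 * (1 + N p.1 * n p.1) + 3)
        ((C p.1).getD k [])) (fun p => (C p.1).length) hq (PTime.length hC1)

theorem pwt_row (h1 : PGLStmt) (h3 : PAGStmt) (h4 : PSEStmt) : PWTStmt := by
  intro A m α _ n v C hA hn hv hC
  have hC1 : PTime (fun p : α × List Game => C p.1) := hC.comp (PTime.fst PTime.id)
  have hn1 : PTime (fun p : α × List Game => n p.1) := hn.comp (PTime.fst PTime.id)
  have hv1 : PTime (fun p : α × List Game => v p.1) := hv.comp (PTime.fst PTime.id)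
  have ho : PTime (fun p : (α × List Game) × ℕ =>
      ((org (n p.1.1) (v p.1.1) (sel (C p.1.1) p.2 p.1.2), 0) : Game × ℕ)) := by
    have hn2 : PTime (fun p : (α × List Game) × ℕ => n p.1.1) := hn1.comp (PTime.fst PTime.id)
    have hv2 : PTime (fun p : (α × List Game) × ℕ => v p.1.1) := hv1.comp (PTime.fst PTime.id)
    have hC2 : PTime (fun p : (α × List Game) × ℕ => C p.1.1) := hC1.comp (PTime.fst PTime.id)
    have e1 : PTime (fun p : (α × List Game) × ℕ => sel (C p.1.1) p.2 p.1.2) :=
      h4.comp (f := fun p : (α × List Game) × ℕ => ((C p.1.1, p.2), p.1.2)) (by fun_prop)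
    have e2 : PTime (fun p : (α × List Game) × ℕ =>
        org (n p.1.1) (v p.1.1) (sel (C p.1.1) p.2 p.1.2)) :=
      h1.2.comp (f := fun p : (α × List Game) × ℕ =>
        ((n p.1.1, v p.1.1), sel (C p.1.1) p.2 p.1.2)) (by fun_prop)
    exact PTime.pair e2 (PTime.const 0)
  have hm : PTime (fun p : α × List Game => (List.range m).map fun x =>
      ((org (n p.1) (v p.1) (sel (C p.1) x p.2), 0) : Game × ℕ)) :=
    PTime.map (g := fun (p : α × List Game) (x : ℕ) =>
      ((org (n p.1) (v p.1) (sel (C p.1) x p.2), 0) : Game × ℕ)) (PTime.const _) ho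
  have hag := hA.comp hm
  have hq : PTime (fun p : (α × List Game) × ℕ =>
      agr (A ((List.range m).map fun x => (org (n p.1.1) (v p.1.1)
        (sel (C p.1.1) x p.1.2), 0))) 1 ((C p.1.1).getD p.2 [])) :=
    h3.1.comp (f := fun p : (α × List Game) × ℕ =>
      ((A ((List.range m).map fun x => (org (n p.1.1) (v p.1.1)
        (sel (C p.1.1) x p.1.2), 0)), 1), (C p.1.1).getD p.2 []))
      (PTime.pair (PTime.pair (hag.comp (PTime.fst PTime.id)) (PTime.const 1))
        (PTime.listGetD (hC1.comp (PTime.fst PTime.id)) (PTime.snd PTime.id) (PTime.const [])))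
  exact h3.2 (α × List Game) (fun p k => agr (A ((List.range m).map fun x =>
        (org (n p.1) (v p.1) (sel (C p.1) x p.2), 0))) 1 ((C p.1).getD k []))
    (fun p => (C p.1).length) hq (PTime.length hC1)

end Pool.PG
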